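import Mathlib
import Pool.Agent.R37.TreeWidth
import Pool.Agent.R37.GlobalFour

set_option autoImplicit false
set_option linter.unusedSectionVars false

/-!
Graphs of maximum degree at most four have optimal tree decompositions with low treewidth bags.
-/

namespace Pool.Agent.Results.MP_888b70_co.OptimalLowTreewidthBags

open Finset Pool.Agent.R37

/-- graphs of maximum degree at most two have tree decompositions with bags of size at most three -/
theorem cov_of_deg_two {V : Type} [Fintype V] [DecidableEq V] (N : ℕ) :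
    ∀ (H : SimpleGraph V) [DecidableRel H.Adj] (U : Finset V), U.card = N →
      (∀ v ∈ U, (U.filter (fun z => H.Adj v z)).card ≤ 2) →
      Cov (fun D : Finset V => D.card ≤ 3) U
        {S | S = ∅ ∨ (∃ u ∈ U, S = {u}) ∨ ∃ u ∈ U, ∃ v ∈ U, H.Adj u v ∧ S = {u, v}} := by
  classical
  induction N with
  | zero =>
    intro H _ U hU _
    rw [Finset.card_eq_zero] at hU
    subst hU
    have h1 : Cov (fun D : Finset V => D.card ≤ 3) (∅ : Finset V) {S | S ⊆ ∅} :=
      Cov.single (by simp)
    apply h1.mono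
    rintro S (rfl | ⟨u, hu, _⟩ | ⟨u, hu, _⟩)
    · exact Finset.Subset.refl _
    · exact absurd hu (Finset.notMem_empty _)
    · exact absurd hu (Finset.notMem_empty _)
  | succ N ih =>
    intro H _ U hU hdeg
    have hne : U.Nonempty := by
      rw [← Finset.card_pos]; omega
    obtain ⟨v, hv⟩ := hne
    obtain ⟨Nv, hNv⟩ : ∃ Nv, Nv = U.filter (fun z => H.Adj v z) := ⟨_, rfl⟩
    have hNvcard : Nv.card ≤ 2 := by rw [hNv]; exact hdeg v hv
    have hNvmem : ∀ z, z ∈ Nv ↔ z ∈ U ∧ H.Adj v z := by intro z; rw [hNv, Finset.mem_filter]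
    have hvNv : v ∉ Nv := by rw [hNvmem]; exact fun h => h.2.ne rfl
    let H' : SimpleGraph V :=
      { Adj := fun a b => H.Adj a b ∨ (a ≠ b ∧ a ∈ Nv ∧ b ∈ Nv)
        symm := ⟨by
          rintro a b (h | ⟨h1, h2, h3⟩)
          · exact Or.inl h.symm
          · exact Or.inr ⟨h1.symm, h3, h2⟩⟩
        loopless := ⟨by
          rintro a (h | ⟨h1, _⟩)
          · exact h.ne rfl
          · exact h1 rfl⟩ }
    have hcard : (U.erase v).card = N := by
      rw [Finset.card_erase_of_mem hv, hU]; rfl
    have hdeg' : ∀ a ∈ U.erase v, ((U.erase v).filter (fun z => H'.Adj a z)).card ≤ 2 := by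
      intro a ha
      rw [Finset.mem_erase] at ha
      by_cases haN : a ∈ Nv
      · have h1 : (U.erase v).filter (fun z => H'.Adj a z) ⊆
            ((U.filter (fun z => H.Adj a z)).erase v) ∪ Nv.erase a := by
          intro z hz
          rw [Finset.mem_filter, Finset.mem_erase] at hz
          obtain ⟨⟨hzv, hzU⟩, hz | ⟨hz1, _, hz3⟩⟩ := hz
          · rw [Finset.mem_union, Finset.mem_erase, Finset.mem_filter]
            exact Or.inl ⟨hzv, hzU, hz⟩
          · rw [Finset.mem_union, Finset.mem_erase (s := Nv)]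
            exact Or.inr ⟨hz1.symm, hz3⟩
        have h2 := (Finset.card_le_card h1).trans (Finset.card_union_le _ _)
        have h3 : v ∈ U.filter (fun z => H.Adj a z) := by
          rw [Finset.mem_filter]
          exact ⟨hv, ((hNvmem a).1 haN).2.symm⟩
        rw [Finset.card_erase_of_mem h3, Finset.card_erase_of_mem haN] at h2
        have h4 := hdeg a ha.2
        omega
      · have h1 : (U.erase v).filter (fun z => H'.Adj a z) ⊆ U.filter (fun z => H.Adj a z) := by
          intro z hz
          rw [Finset.mem_filter, Finset.mem_erase] at hz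
          obtain ⟨⟨hzv, hzU⟩, hz | ⟨_, hz2, _⟩⟩ := hz
          · rw [Finset.mem_filter]; exact ⟨hzU, hz⟩
          · exact absurd hz2 haN
        exact (Finset.card_le_card h1).trans (hdeg a ha.2)
    have h1 := ih H' (U.erase v) hcard hdeg'
    have hNvU : ∀ z ∈ Nv, z ∈ U.erase v := by
      intro z hz
      rw [Finset.mem_erase]
      exact ⟨fun h => hvNv (h ▸ hz), ((hNvmem z).1 hz).1⟩
    have hNvF : Nv ∈ ({S | S = ∅ ∨ (∃ u ∈ U.erase v, S = {u}) ∨
        ∃ u ∈ U.erase v, ∃ w ∈ U.erase v, H'.Adj u w ∧ S = {u, w}} : Set (Finset V)) := by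
      have h2 : Nv.card = 0 ∨ Nv.card = 1 ∨ Nv.card = 2 := by omega
      rcases h2 with h2 | h2 | h2
      · exact Or.inl (Finset.card_eq_zero.1 h2)
      · obtain ⟨a, ha⟩ := Finset.card_eq_one.1 h2
        exact Or.inr (Or.inl ⟨a, hNvU a (by rw [ha]; simp), ha⟩)
      · obtain ⟨a, b, hab, hS⟩ := Finset.card_eq_two.1 h2
        have ha : a ∈ Nv := by rw [hS]; simp
        have hb : b ∈ Nv := by rw [hS]; simp
        exact Or.inr (Or.inr ⟨a, hNvU a ha, b, hNvU b hb, Or.inr ⟨hab, ha, hb⟩, hS⟩)
    have h2 := h1.add hNvF (N := insert v Nv) (by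
      refine (Finset.card_insert_le _ _).trans ?_
      omega) (by
      intro z hz hz'
      rw [Finset.mem_insert] at hz
      rcases hz with rfl | hz
      · exact absurd rfl (Finset.mem_erase.1 hz').1
      · exact hz)
    have h3 : U.erase v ∪ insert v Nv = U := by
      ext z
      rw [Finset.mem_union, Finset.mem_erase, Finset.mem_insert]
      constructor
      · rintro (h | rfl | h)
        · exact h.2
        · exact hv
        · exact ((hNvmem z).1 h).1
      · intro h
        by_cases hz : z = v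
        · exact Or.inr (Or.inl hz)
        · exact Or.inl ⟨hz, h⟩
    rw [h3] at h2
    apply h2.mono
    have hsub : ∀ w, w ∈ U → H.Adj v w → ({v, w} : Finset V) ⊆ insert v Nv := by
      intro w hw hvw z hz
      rw [Finset.mem_insert, Finset.mem_singleton] at hz
      rw [Finset.mem_insert]
      rcases hz with rfl | rfl
      · exact Or.inl rfl
      · exact Or.inr ((hNvmem z).2 ⟨hw, hvw⟩)
    rintro S (rfl | ⟨u, hu, rfl⟩ | ⟨u, hu, w, hw, huw, rfl⟩)
    · exact Or.inl (Or.inl rfl)
    · by_cases huv : u = v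
      · right
        rw [huv]
        intro z hz
        rw [Finset.mem_singleton] at hz
        rw [hz]; exact Finset.mem_insert_self _ _
      · exact Or.inl (Or.inr (Or.inl ⟨u, Finset.mem_erase.2 ⟨huv, hu⟩, rfl⟩))
    · by_cases huv : u = v
      · right
        rw [huv] at huw ⊢
        exact hsub w hw huw
      · by_cases hwv : w = v
        · right
          rw [hwv] at huw ⊢
          rw [Finset.pair_comm]
          exact hsub u hu huw.symm
        · exact Or.inl (Or.inr (Or.inr ⟨u, Finset.mem_erase.2 ⟨huv, hu⟩, w,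
            Finset.mem_erase.2 ⟨hwv, hw⟩, Or.inl huw, rfl⟩))

/-- good bags induce graphs of treewidth at most seven -/
theorem treewidth_goodBag {V : Type} [Fintype V] [DecidableEq V] {G : SimpleGraph V}
    [DecidableRel G.Adj] {D : Finset V} (h : GoodBag G D) :
    treewidth (G.induce (D : Set V)) ≤ 7 := by
  classical
  obtain ⟨Y, X0, hD, hdeg, hX0⟩ := h
  obtain ⟨m, p, B, h1, h2, h3⟩ := cov_of_deg_two Y.card G Y rfl hdeg
  let B' : ℕ → Finset (D : Set V) := fun i =>
    (univ : Finset (D : Set V)).filter (fun x => x.1 ∈ B i ∨ x.1 ∈ X0)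
  have hmem : ∀ i (x : (D : Set V)), x ∈ B' i ↔ x.1 ∈ B i ∨ x.1 ∈ X0 := by
    intro i x
    simp [B']
  have hP : ParTD (G.induce (D : Set V)) m p B' := by
    refine ⟨h1.pos, h1.lt, ?_, ?_⟩
    · intro u v huv
      have huv' : G.Adj u.1 v.1 := huv
      have hu := hD u.2
      have hv := hD v.2
      rw [Finset.mem_union] at hu hv
      by_cases hu0 : u.1 ∈ X0
      · by_cases hv0 : v.1 ∈ X0
        · exact ⟨0, h1.pos, (hmem 0 u).2 (Or.inr hu0), (hmem 0 v).2 (Or.inr hv0)⟩
        · obtain ⟨i, hi, hvi, _⟩ := h1.top v.1 (hv.resolve_right hv0)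
          exact ⟨i, hi, (hmem i u).2 (Or.inr hu0), (hmem i v).2 (Or.inl hvi)⟩
      · by_cases hv0 : v.1 ∈ X0
        · obtain ⟨i, hi, hui, _⟩ := h1.top u.1 (hu.resolve_right hu0)
          exact ⟨i, hi, (hmem i u).2 (Or.inl hui), (hmem i v).2 (Or.inr hv0)⟩
        · obtain ⟨i, hi, hsub⟩ := h3 {u.1, v.1} (Or.inr (Or.inr ⟨u.1, hu.resolve_right hu0, v.1,
            hv.resolve_right hv0, huv', rfl⟩))
          exact ⟨i, hi, (hmem i u).2 (Or.inl (hsub (by simp))),
            (hmem i v).2 (Or.inl (hsub (by simp)))⟩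
    · intro v
      by_cases hv0 : v.1 ∈ X0
      · exact ⟨0, h1.pos, (hmem 0 v).2 (Or.inr hv0), fun i _ _ hne =>
          ⟨by omega, (hmem _ v).2 (Or.inr hv0)⟩⟩
      · have hv := hD v.2
        rw [Finset.mem_union] at hv
        obtain ⟨τ, hτ, hvτ, htop⟩ := h1.top v.1 (hv.resolve_right hv0)
        refine ⟨τ, hτ, (hmem τ v).2 (Or.inl hvτ), fun i hi hvi hne => ?_⟩
        rw [hmem] at hvi
        obtain ⟨h4, h5⟩ := htop i hi (hvi.resolve_right hv0) hne
        exact ⟨h4, (hmem _ v).2 (Or.inl h5)⟩
  obtain ⟨T, hT⟩ := hP.exists_td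
  refine (treewidth_le_width hT).trans (width_le ?_)
  intro t
  have h4 : (B' t).card ≤ (B t.1 ∪ X0).card := by
    apply Finset.card_le_card_of_injOn (fun x => x.1)
    · intro x hx
      rw [Finset.mem_coe, hmem] at hx
      rw [Finset.mem_coe, Finset.mem_union]
      exact hx
    · intro x _ y _ hxy
      exact Subtype.ext hxy
  have h5 := h4.trans (Finset.card_union_le _ _)
  have h6 := h2 t.1 t.2
  simp only at h6
  omega

/-- Every graph of maximum degree at most four has an optimal tree decomposition all of whose bags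
induce subgraphs of treewidth at most seven. -/
theorem result : ∀ (V : Type) [Fintype V] (G : SimpleGraph V),
    (∀ v, (G.neighborSet v).ncard ≤ 4) →
    ∃ (n : ℕ) (T : SimpleGraph (Fin n)) (X : Fin n → Finset V), IsTreeDecomposition G T X ∧
      width X = treewidth G ∧ ∀ t, treewidth (G.induce (X t : Set V)) ≤ 7 := by
  classical
  intro V _ G hdeg
  have hdeg' : ∀ v, G.degree v ≤ 4 := by
    intro v
    have h := hdeg v
    rw [Set.ncard_eq_toFinset_card' (G.neighborSet v)] at h
    exact h
  obtain ⟨n, T, X, h1, h2⟩ := exists_width_eq G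
  obtain ⟨n', T', X', h3, h4⟩ := exists_good_td (G := G) hdeg' (k := treewidth G + 1)
    ⟨n, T, X, h1, fun t => by rw [← h2]; exact card_le_width X t⟩
  refine ⟨n', T', X', h3, ?_, fun t => treewidth_goodBag (h4 t).2⟩
  exact le_antisymm (width_le (fun t => (h4 t).1)) (treewidth_le_width h3)

end Pool.Agent.Results.MP_888b70_co.OptimalLowTreewidthBags
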